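import Pool.Agent.W27.FB.Stm

/-!
# FN-CLAMP: truncation of a trigonometric polynomial to values in the unit interval
-/

set_option autoImplicit false
open Filter Topology Finset
open scoped BoundedContinuousFunction

namespace Pool.Agent.W505.FN

open Pool.Agent.W27.FB Pool.Agent.W634.BQ Pool.Agent.W505.BQ

theorem co_add (f g : ℤ →ᵇ ℝ) : co (f + g) = co f + co g := by
  ext n
  simp

theorem co_mul (f g : ℤ →ᵇ ℝ) : co (f * g) = co f * co g := by
  ext n
  simp

theorem co_smul (c : ℝ) (f : ℤ →ᵇ ℝ) : co (c • f) = (c : ℂ) • co f := by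
  ext n
  simp

theorem co_one : co (1 : ℤ →ᵇ ℝ) = 1 := by
  ext n
  simp

/-- values of a polynomial of a bounded function -/
theorem aeval_val (p : Polynomial ℝ) (R : ℤ →ᵇ ℝ) (n : ℤ) :
    (Polynomial.aeval R p) n = p.eval (R n) := by
  induction p using Polynomial.induction_on' with
  | add p q hp hq =>
    rw [map_add, BoundedContinuousFunction.coe_add, Pi.add_apply, hp, hq, Polynomial.eval_add]
  | monomial k a =>
    rw [Polynomial.aeval_monomial, Polynomial.eval_monomial]
    rw [BoundedContinuousFunction.coe_mul, Pi.mul_apply]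
    congr 1

theorem co_aeval (htrg : S_trg) (p : Polynomial ℝ) (R : ℤ →ᵇ ℝ) (hR : co R ∈ Trig) :
    co (Polynomial.aeval R p) ∈ Trig := by
  obtain ⟨h1, h2, -⟩ := htrg
  induction p using Polynomial.induction_on' with
  | add p q hp hq =>
    rw [map_add, co_add]
    exact Trig.add_mem hp hq
  | monomial k a =>
    have h3 : Polynomial.aeval R (Polynomial.monomial k a) = a • R ^ k := by
      ext n
      rw [aeval_val, Polynomial.eval_monomial]
      simp
    rw [h3, co_smul]
    apply Trig.smul_mem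
    clear h3
    induction k with
    | zero =>
      rw [pow_zero, co_one]
      exact h1
    | succ k ih =>
      rw [pow_succ, co_mul]
      exact h2 _ _ ih hR

theorem clamp (htrg : S_trg) : S_clamp := by
  intro Q hQ δ hδ
  have hstar := htrg.2.2
  have hone := htrg.1
  -- the real part
  have hR : co (cre Q) ∈ Trig := by
    have h1 : co (cre Q) = (1 / 2 : ℂ) • (Q + star Q) := by
      ext n
      simp only [co_apply, cre_apply, BoundedContinuousFunction.coe_smul,
        BoundedContinuousFunction.coe_add, Pi.add_apply, BoundedContinuousFunction.star_apply,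
        smul_eq_mul]
      rw [RCLike.star_def, Complex.add_conj]
      push_cast
      ring
    rw [h1]
    exact Trig.smul_mem _ (Trig.add_mem hQ (hstar Q hQ))
  obtain ⟨p, hp⟩ := exists_polynomial_near_of_continuousOn (-‖Q‖) ‖Q‖
    (fun t : ℝ => max 0 (min 1 t)) (by fun_prop) δ hδ
  set P0 : ℤ →ᵇ ℝ := Polynomial.aeval (cre Q) p with hP0
  have hval : ∀ n, P0 n = p.eval ((Q n).re) := fun n => by rw [hP0, aeval_val, cre_apply]
  have hnear : ∀ n, |P0 n - max 0 (min 1 (Q n).re)| < δ := by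
    intro n
    rw [hval]
    apply hp
    have h1 := (Complex.abs_re_le_norm (Q n)).trans (Q.norm_coe_le_norm n)
    rw [abs_le] at h1
    exact h1
  have hc : 0 < 1 + 2 * δ := by linarith
  refine ⟨(1 + 2 * δ)⁻¹ • (P0 + δ • 1), ?_, ?_, ?_⟩
  · rw [co_smul, co_add, co_smul, co_one]
    exact Trig.smul_mem _ (Trig.add_mem (co_aeval htrg p _ hR) (Trig.smul_mem _ hone))
  · intro n
    have h1 := hnear n
    rw [abs_lt] at h1
    have h2 : (0 : ℝ) ≤ max 0 (min 1 (Q n).re) := le_max_left _ _
    have h3 : max 0 (min 1 (Q n).re) ≤ (1 : ℝ) := max_le zero_le_one (min_le_left _ _)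
    have e1 : ((1 + 2 * δ)⁻¹ • (P0 + δ • (1 : ℤ →ᵇ ℝ))) n = (1 + 2 * δ)⁻¹ * (P0 n + δ) := by
      simp [mul_add]
    rw [e1]
    constructor
    · apply mul_nonneg (inv_nonneg.mpr hc.le)
      linarith [h1.1]
    · rw [inv_mul_le_iff₀ hc]
      linarith [h1.2]
  · intro n s hs0 hs1
    have h1 := hnear n
    rw [abs_lt] at h1
    have h2 : (0 : ℝ) ≤ max 0 (min 1 (Q n).re) := le_max_left _ _
    have h3 : max 0 (min 1 (Q n).re) ≤ (1 : ℝ) := max_le zero_le_one (min_le_left _ _)
    have e1 : ((1 + 2 * δ)⁻¹ • (P0 + δ • (1 : ℤ →ᵇ ℝ))) n = (1 + 2 * δ)⁻¹ * (P0 n + δ) := by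
      simp [mul_add]
    rw [e1]
    have h4 : |s - max 0 (min 1 (Q n).re)| ≤ ‖(s : ℂ) - Q n‖ := by
      have h5 : |s - (Q n).re| ≤ ‖(s : ℂ) - Q n‖ := by
        have := Complex.abs_re_le_norm ((s : ℂ) - Q n)
        simpa using this
      refine le_trans ?_ h5
      rw [← sq_le_sq]
      rcases le_total 0 (Q n).re with h6 | h6
      · rcases le_total (Q n).re 1 with h7 | h7
        · rw [min_eq_right h7, max_eq_right h6]
        · rw [min_eq_left h7, max_eq_right zero_le_one]
          nlinarith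
      · rw [min_eq_right (h6.trans zero_le_one), max_eq_left h6]
        nlinarith
    have h5 : |P0 n - (1 + 2 * δ)⁻¹ * (P0 n + δ)| ≤ δ := by
      have h6 : P0 n - (1 + 2 * δ)⁻¹ * (P0 n + δ) = (1 + 2 * δ)⁻¹ * (δ * (2 * P0 n - 1)) := by
        field_simp
        ring
      rw [h6, abs_mul, abs_of_pos (inv_pos.mpr hc), inv_mul_le_iff₀ hc, abs_mul, abs_of_pos hδ,
        mul_comm]
      apply mul_le_mul_of_nonneg_right _ hδ.le
      rw [abs_le]
      constructor <;> linarith [h1.1, h1.2]
    have h6 : s - (1 + 2 * δ)⁻¹ * (P0 n + δ) = (s - max 0 (min 1 (Q n).re)) -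
        (P0 n - max 0 (min 1 (Q n).re)) + (P0 n - (1 + 2 * δ)⁻¹ * (P0 n + δ)) := by ring
    rw [h6]
    have h7 := abs_add_le ((s - max 0 (min 1 (Q n).re)) - (P0 n - max 0 (min 1 (Q n).re)))
      (P0 n - (1 + 2 * δ)⁻¹ * (P0 n + δ))
    have h8 := abs_sub (s - max 0 (min 1 (Q n).re)) (P0 n - max 0 (min 1 (Q n).re))
    have h9 := (hnear n).le
    linarith

end Pool.Agent.W505.FN
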