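import Pool.Agent.W27.FB.Stm

/-!
# FN-NUL: means vanish on null sets; null sets form an ideal
-/

set_option autoImplicit false
open Filter Topology Finset
open scoped BoundedContinuousFunction

namespace Pool.Agent.W505.FN

open Pool.Agent.W27.FB Pool.Agent.W634.BQ Pool.Agent.W505.BQ

theorem mean_mono {m : (ℤ →ᵇ ℝ) →ₗ[ℝ] ℝ} (hm : IsMean m) {f g : ℤ →ᵇ ℝ}
    (h : ∀ n, f n ≤ g n) : m f ≤ m g := by
  have h1 : 0 ≤ m (g - f) := by
    apply hm.pos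
    intro n
    rw [BoundedContinuousFunction.coe_sub, Pi.sub_apply]
    linarith [h n]
  rw [map_sub] at h1
  linarith

theorem mean_sh {m : (ℤ →ᵇ ℝ) →ₗ[ℝ] ℝ} (hm : IsMean m) (f : ℤ →ᵇ ℝ) (n : ℕ) :
    m (sh (n : ℤ) f) = m f := by
  induction n with
  | zero =>
    congr 1
    ext k
    simp
  | succ n ih =>
    have h1 : sh ((n + 1 : ℕ) : ℤ) f = sh 1 (sh (n : ℤ) f) := by
      ext k
      rw [sh_apply, sh_apply, sh_apply]
      congr 1
      push_cast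
      ring
    rw [h1, hm.inv, ih]

theorem ind_apply (N : Set ℤ) (u : ℤ) [Decidable (u ∈ N)] :
    ind N u = if u ∈ N then 1 else 0 := by
  show N.indicator (fun _ => (1 : ℝ)) u = _
  rw [Set.indicator_apply]

open Classical in
theorem ncard_eq (N : Set ℤ) (L : ℕ) (u : ℤ) :
    ({n : ℕ | n < L ∧ u + (n : ℤ) ∈ N}.ncard : ℝ) = ∑ n ∈ range L, ind N (u + n) := by
  have h1 : {n : ℕ | n < L ∧ u + (n : ℤ) ∈ N} =
      ((range L).filter (fun n : ℕ => u + (n : ℤ) ∈ N) : Finset ℕ) := by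
    ext n
    simp
  rw [h1, Set.ncard_coe_finset, Finset.card_filter]
  push_cast
  exact sum_congr rfl fun n _ => (ind_apply N (u + n)).symm

theorem fin_set (N : Set ℤ) (L : ℕ) (u : ℤ) : {n : ℕ | n < L ∧ u + (n : ℤ) ∈ N}.Finite :=
  (Set.finite_lt_nat L).subset fun _ h => h.1

theorem mean_null {m : (ℤ →ᵇ ℝ) →ₗ[ℝ] ℝ} (hm : IsMean m) {N : Set ℤ} (hN : Null N) :
    m (ind N) = 0 := by
  classical
  have h0 : 0 ≤ m (ind N) := by
    apply hm.pos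
    intro n
    rw [ind_apply]
    split_ifs <;> norm_num
  refine le_antisymm (le_of_forall_pos_le_add fun ε hε => ?_) h0
  rw [zero_add]
  obtain ⟨L0, hL0⟩ := hN ε hε
  set L := max L0 1 with hL
  have hL1 : (1 : ℝ) ≤ L := by
    have : 1 ≤ L := le_max_right _ _
    exact_mod_cast this
  have hLp : (0 : ℝ) < L := by linarith
  have h1 : m ((L : ℝ)⁻¹ • ∑ n ∈ range L, sh (n : ℤ) (ind N)) = m (ind N) := by
    rw [map_smul, map_sum]
    rw [sum_congr rfl fun n _ => mean_sh hm (ind N) n]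
    rw [sum_const, card_range, nsmul_eq_mul, smul_eq_mul]
    field_simp
  rw [← h1]
  have h2 : m ((L : ℝ)⁻¹ • ∑ n ∈ range L, sh (n : ℤ) (ind N)) ≤ m (ε • (1 : ℤ →ᵇ ℝ)) := by
    apply mean_mono hm
    intro u
    have e1 : ((L : ℝ)⁻¹ • ∑ n ∈ range L, sh (n : ℤ) (ind N)) u =
        (L : ℝ)⁻¹ * ∑ n ∈ range L, ind N (u + n) := by
      rw [BoundedContinuousFunction.coe_smul]
      simp only [smul_eq_mul]
      congr 1
      rw [BoundedContinuousFunction.coe_sum, Finset.sum_apply]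
      simp only [sh_apply]
    have e2 : (ε • (1 : ℤ →ᵇ ℝ)) u = ε := by simp
    rw [e1, e2]
    have h3 := hL0 L (le_max_left _ _) u
    rw [ncard_eq] at h3
    rw [inv_mul_le_iff₀ hLp, mul_comm]
    exact h3
  have h4 : m (ε • (1 : ℤ →ᵇ ℝ)) = ε := by
    rw [map_smul, hm.one, smul_eq_mul, mul_one]
  rw [h4] at h2
  exact h2

theorem null_mono {N N' : Set ℤ} (h : N' ⊆ N) (hN : Null N) : Null N' := by
  intro ε hε
  obtain ⟨L0, hL0⟩ := hN ε hε
  refine ⟨L0, fun L hL u => le_trans ?_ (hL0 L hL u)⟩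
  have : {n : ℕ | n < L ∧ u + (n : ℤ) ∈ N'}.ncard ≤ {n : ℕ | n < L ∧ u + (n : ℤ) ∈ N}.ncard :=
    Set.ncard_le_ncard (fun n hn => ⟨hn.1, h hn.2⟩) (fin_set N L u)
  exact_mod_cast this

theorem null_union {N N' : Set ℤ} (hN : Null N) (hN' : Null N') : Null (N ∪ N') := by
  intro ε hε
  obtain ⟨L0, hL0⟩ := hN (ε / 2) (by positivity)
  obtain ⟨L1, hL1⟩ := hN' (ε / 2) (by positivity)
  refine ⟨max L0 L1, fun L hL u => ?_⟩
  have h1 := hL0 L ((le_max_left _ _).trans hL) u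
  have h2 := hL1 L ((le_max_right _ _).trans hL) u
  have h3 : {n : ℕ | n < L ∧ u + (n : ℤ) ∈ N ∪ N'} =
      {n : ℕ | n < L ∧ u + (n : ℤ) ∈ N} ∪ {n : ℕ | n < L ∧ u + (n : ℤ) ∈ N'} := by
    ext n
    simp only [Set.mem_ofPred_eq, Set.mem_union]
    tauto
  have h4 : {n : ℕ | n < L ∧ u + (n : ℤ) ∈ N ∪ N'}.ncard ≤
      {n : ℕ | n < L ∧ u + (n : ℤ) ∈ N}.ncard + {n : ℕ | n < L ∧ u + (n : ℤ) ∈ N'}.ncard := by
    rw [h3]
    exact Set.ncard_union_le _ _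
  have h5 : ({n : ℕ | n < L ∧ u + (n : ℤ) ∈ N ∪ N'}.ncard : ℝ) ≤
      ({n : ℕ | n < L ∧ u + (n : ℤ) ∈ N}.ncard : ℝ) +
        ({n : ℕ | n < L ∧ u + (n : ℤ) ∈ N'}.ncard : ℝ) := by
    exact_mod_cast h4
  linarith

theorem null_empty : Null ∅ := by
  intro ε hε
  refine ⟨0, fun L _ u => ?_⟩
  have h1 : {n : ℕ | n < L ∧ u + (n : ℤ) ∈ (∅ : Set ℤ)} = ∅ := by
    ext n
    simp
  rw [h1, Set.ncard_empty]
  push_cast
  positivity

theorem not_null_univ : ¬ Null Set.univ := by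
  intro h
  obtain ⟨L0, hL0⟩ := h (1 / 2) (by norm_num)
  have h1 := hL0 (max L0 1) (le_max_left _ _) 0
  have h2 : {n : ℕ | n < max L0 1 ∧ (0 : ℤ) + (n : ℤ) ∈ (Set.univ : Set ℤ)} =
      ((range (max L0 1) : Finset ℕ) : Set ℕ) := by
    ext n
    simp
  rw [h2, Set.ncard_coe_finset, card_range] at h1
  have h3 : (1 : ℝ) ≤ (max L0 1 : ℕ) := by
    have : 1 ≤ max L0 1 := le_max_right _ _
    exact_mod_cast this
  linarith

theorem null_neg {N : Set ℤ} (hN : Null N) : Null {a : ℤ | -a ∈ N} := by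
  intro ε hε
  obtain ⟨L0, hL0⟩ := hN ε hε
  refine ⟨L0, fun L hL u => ?_⟩
  refine le_trans ?_ (hL0 L hL (-u - (L - 1)))
  have h1 : {n : ℕ | n < L ∧ u + (n : ℤ) ∈ {a : ℤ | -a ∈ N}}.ncard ≤
      {n : ℕ | n < L ∧ (-u - ((L : ℤ) - 1)) + (n : ℤ) ∈ N}.ncard := by
    refine Set.ncard_le_ncard_of_injOn (fun n => L - 1 - n) ?_ ?_ (fin_set N L _)
    · rintro n ⟨hn, hnN⟩
      refine ⟨by omega, ?_⟩
      have h2 : (((L - 1 - n : ℕ)) : ℤ) = (L : ℤ) - 1 - n := by omega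
      simp only [Set.mem_ofPred_eq] at hnN
      show (-u - ((L : ℤ) - 1)) + (((L - 1 - n : ℕ)) : ℤ) ∈ N
      rw [h2]
      have h3 : (-u - ((L : ℤ) - 1)) + ((L : ℤ) - 1 - n) = -(u + n) := by ring
      rw [h3]
      exact hnN
    · rintro a ⟨ha, -⟩ b ⟨hb, -⟩ hab
      simp only at hab
      omega
  exact_mod_cast h1

theorem nul : S_nul :=
  ⟨fun _ hm _ hN => mean_null hm hN, fun _ _ h hN => null_mono h hN,
    fun _ _ h1 h2 => null_union h1 h2, null_empty, not_null_univ, fun _ h => null_neg h⟩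

end Pool.Agent.W505.FN
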