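import Pool.Agent.W27.FB.Stm
import Pool.Agent.W880.BQ.WM

/-!
# FN-WMH: correlations of weakly mixing vectors with arbitrary vectors are small off null sets
-/

set_option autoImplicit false
open Filter Topology Finset
open scoped BoundedContinuousFunction

namespace Pool.Agent.W505.FN

open Pool.Agent.W27.FB Pool.Agent.W634.BQ Pool.Agent.W505.BQ
open Pool.Agent.W880.BQ (cc inner_zpow cc_neg)

theorem sum_bound {H : Type} [NormedAddCommGroup H] [InnerProductSpace ℂ H]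
    (U : H ≃ₗᵢ[ℂ] H) (f h : H) (ε : ℝ) (hε : 0 ≤ ε) (L : ℕ)
    (hL : ∀ N : ℤ, ∑ n ∈ range L, ‖inner ℂ ((U ^ (N + n)) f) f‖ ≤ ε * L) (N : ℤ) :
    ∑ n ∈ range L, ‖inner ℂ h ((U ^ (N + n)) f)‖ ≤ ‖h‖ * Real.sqrt ε * L := by
  obtain ⟨a, ha⟩ : ∃ a : ℕ → ℂ, ∀ n, a n = inner ℂ h ((U ^ (N + n)) f) := ⟨_, fun _ => rfl⟩
  have hu : ∀ n, ∃ u : ℂ, ‖u‖ ≤ 1 ∧ u * a n = ‖a n‖ := by
    intro n
    refine ⟨(starRingEnd ℂ) (a n) / ‖a n‖, ?_, ?_⟩
    · rw [norm_div, Complex.norm_real, norm_norm, RCLike.norm_conj]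
      exact div_self_le_one _
    · rw [div_mul_eq_mul_div, Complex.conj_mul']
      rcases eq_or_ne (a n) 0 with h | h
      · simp [h]
      · have : (‖a n‖ : ℂ) ≠ 0 := by
          rw [Complex.ofReal_ne_zero]
          exact norm_ne_zero_iff.2 h
        field_simp
  choose u hu1 hu2 using hu
  obtain ⟨v, hv⟩ : ∃ v : H, v = ∑ n ∈ range L, u n • ((U ^ (N + n)) f) := ⟨_, rfl⟩
  obtain ⟨S, hS⟩ : ∃ S : ℝ, S = ∑ n ∈ range L, ‖inner ℂ h ((U ^ (N + n)) f)‖ := ⟨_, rfl⟩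
  have h1 : ((S : ℝ) : ℂ) = inner ℂ h v := by
    rw [hv, hS, inner_sum, Complex.ofReal_sum]
    refine sum_congr rfl fun n _ => ?_
    rw [inner_smul_right, ← ha, hu2]
  have hS0 : 0 ≤ S := by
    rw [hS]
    exact sum_nonneg fun _ _ => norm_nonneg _
  have h2 : S ≤ ‖h‖ * ‖v‖ := by
    have h3 := norm_inner_le_norm (𝕜 := ℂ) h v
    rw [← h1, Complex.norm_real, Real.norm_eq_abs, abs_of_nonneg hS0] at h3
    exact h3
  have h3 : ‖v‖ ^ 2 ≤ ε * (L : ℝ) ^ 2 := by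
    have h4 : ‖v‖ ^ 2 = ‖(inner ℂ v v : ℂ)‖ := by
      rw [inner_self_eq_norm_sq_to_K]
      simp
    have h5 : ∀ n ∈ range L, ‖inner ℂ (u n • ((U ^ (N + n)) f)) v‖ ≤ ε * L := by
      intro n _
      conv_lhs => rw [hv]
      rw [inner_sum]
      refine (norm_sum_le _ _).trans ?_
      refine le_trans (sum_le_sum fun k _ => ?_) (hL (-(n : ℤ)))
      rw [inner_smul_left, inner_smul_right, inner_zpow, norm_mul, norm_mul, RCLike.norm_conj]
      have h6 : (N + (k : ℤ)) - (N + (n : ℤ)) = -(n : ℤ) + k := by ring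
      rw [h6]
      have h7 : ‖cc U f (-(n : ℤ) + k)‖ = ‖inner ℂ ((U ^ (-(n : ℤ) + k)) f) f‖ := by
        unfold Pool.Agent.W880.BQ.cc
        rw [norm_inner_symm]
      rw [← h7]
      have h8 : 0 ≤ ‖cc U f (-(n : ℤ) + k)‖ := norm_nonneg _
      have h9 := hu1 n
      have h10 := hu1 k
      have h11 : 0 ≤ ‖u n‖ := norm_nonneg _
      have h12 : 0 ≤ ‖u k‖ := norm_nonneg _
      calc _ ≤ 1 * (1 * ‖cc U f (-(n : ℤ) + k)‖) := by gcongr
        _ = _ := by ring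
    rw [h4]
    conv_lhs => rw [hv]
    rw [sum_inner]
    rw [← hv]
    refine (norm_sum_le _ _).trans ((sum_le_sum h5).trans ?_)
    rw [sum_const, card_range, nsmul_eq_mul]
    apply le_of_eq
    ring
  have h4 : ‖v‖ ≤ Real.sqrt ε * L := by
    have h5 : (Real.sqrt ε * L) ^ 2 = ε * (L : ℝ) ^ 2 := by
      rw [mul_pow, Real.sq_sqrt hε]
    rw [← h5] at h3
    exact (pow_le_pow_iff_left₀ (norm_nonneg _) (by positivity) (by norm_num)).1 h3
  rw [← hS]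
  calc S ≤ ‖h‖ * ‖v‖ := h2
    _ ≤ ‖h‖ * (Real.sqrt ε * L) := mul_le_mul_of_nonneg_left h4 (norm_nonneg _)
    _ = _ := by ring

theorem wmh : S_wmh := by
  intro H _ _ _ U f hf h η hη ε' hε'
  have hh : 0 < ‖h‖ + 1 := by positivity
  set δ : ℝ := η * ε' / (‖h‖ + 1) with hδ
  have hδ0 : 0 < δ := by positivity
  obtain ⟨L0, hL0⟩ := Pool.Agent.W880.BQ.wm H U f hf (δ ^ 2) (by positivity)
  refine ⟨L0, fun L hL u => ?_⟩
  have h1 := sum_bound U f h (δ ^ 2) (by positivity) L (hL0 L hL) u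
  rw [Real.sqrt_sq hδ0.le] at h1
  have h2 : ‖h‖ * δ ≤ η * ε' := by
    have h3 : (‖h‖ + 1) * δ = η * ε' := by
      rw [hδ]
      field_simp
    nlinarith
  classical
  have h3 : {n : ℕ | n < L ∧ u + (n : ℤ) ∈ {a : ℤ | η < ‖inner ℂ h ((U ^ a) f)‖}} =
      ((range L).filter (fun n : ℕ => η < ‖inner ℂ h ((U ^ (u + (n : ℤ))) f)‖) : Finset ℕ) := by
    ext n
    simp
  rw [h3, Set.ncard_coe_finset]
  obtain ⟨F, hF⟩ : ∃ F : Finset ℕ,
      F = (range L).filter (fun n : ℕ => η < ‖inner ℂ h ((U ^ (u + (n : ℤ))) f)‖) := ⟨_, rfl⟩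
  rw [← hF]
  have h4 : (F.card : ℝ) * η ≤ ∑ n ∈ range L, ‖inner ℂ h ((U ^ (u + (n : ℤ))) f)‖ := by
    calc (F.card : ℝ) * η = ∑ n ∈ F, η := by
          rw [sum_const, nsmul_eq_mul]
      _ ≤ ∑ n ∈ F, ‖inner ℂ h ((U ^ (u + (n : ℤ))) f)‖ := by
          refine sum_le_sum fun n hn => ?_
          rw [hF, mem_filter] at hn
          exact hn.2.le
      _ ≤ _ := by
          refine sum_le_sum_of_subset_of_nonneg ?_ fun _ _ _ => norm_nonneg _
          rw [hF]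
          exact filter_subset _ _
  have h5 : (F.card : ℝ) * η ≤ (ε' * L) * η := by
    refine h4.trans (h1.trans ?_)
    calc ‖h‖ * δ * L ≤ (η * ε') * L := mul_le_mul_of_nonneg_right h2 (Nat.cast_nonneg _)
      _ = _ := by ring
  exact le_of_mul_le_mul_right h5 hη

end Pool.Agent.W505.FN
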